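import Pool.Agent.MQG.StmtsB
import Pool.Agent.MQG.StmtsC

set_option autoImplicit false

/-!
# Squad MQG, rows LTX (existence of `λ~`) and LTH (`λ~` and the slices)
-/

namespace Pool.Agent.MQG.H35

open scoped InnerProductSpace InnerProduct Topology ComplexConjugate
open Complex Filter

/-- LTX -/
theorem ltx (hHTE : HteStmt) (hHBD : HbdStmt) (hLNO : LnoStmt) (hTLA : TlaStmt)
    (hTLB : TlbStmt) : LtxStmt := by
  intro ι M κ U hU μ
  obtain ⟨Uh, hUh, hhat⟩ := hHTE ι M κ U hU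
  have hn := hLNO ι κ U hU.unit μ
  have hI : I * ((1 / 2 : ℝ) : ℂ) = I / 2 := by
    push_cast
    ring
  have hb : ∀ f g : ℂ → L2 ι, Traj M.V f → Traj M.V g →
      ‖⟪f (I * ((1 / 2 : ℝ) : ℂ)), lam U μ (g (-(I * ((1 / 2 : ℝ) : ℂ))))⟫_ℂ‖ ≤
        ‖μ‖ * ‖f 0‖ * ‖g 0‖ := by
    intro f g hf hg
    rw [hI]
    exact hHBD ι M.V κ U Uh hUh hhat μ f g hf hg
  obtain ⟨F, hF⟩ := hTLA ι M.V M.V_group (lam U μ) ‖μ‖ (1 / 2) (by norm_num) hn hb
  refine ⟨F (I * ((1 / 4 : ℝ) : ℂ)), ?_, ?_⟩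
  · exact hTLB ι M.V M.V_group (lam U μ) ‖μ‖ (1 / 2) F hF (1 / 4) (by norm_num) (by norm_num)
  · have h1 : (I * ((1 / 4 : ℝ) : ℂ)).im = 1 / 4 := by
      rw [I_mul_im, ofReal_re]
    refine (hF _ ?_ ?_).1
    · rw [h1]
      norm_num
    · rw [h1]
      norm_num

variable {κ ι : Type}

/-- the slices, as a sesquilinear map into the algebra -/
noncomputable def aslL (U : Op (κ × ι)) : L2 ι →L⋆[ℂ] L2 ι →L[ℂ] Al U :=
  LinearMap.mkContinuous₂
    (LinearMap.mk₂'ₛₗ (starRingEnd ℂ) (RingHom.id ℂ) (fun u y => asl U u y)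
      (fun u u' y => val_injective (by simpa using sl_add_left U u u' y))
      (fun r u y => val_injective (by simpa using sl_smul_left U r u y))
      (fun u y y' => val_injective (by simpa using sl_add_right U u y y'))
      (fun r u y => val_injective (by simpa using sl_smul_right U r u y)))
    ‖U‖ (fun u y => norm_sl_le U u y)

theorem aslL_apply (U : Op (κ × ι)) (u y : L2 ι) : aslL U u y = asl U u y := rfl

/-- LTH -/
theorem lth (hLTS : LtsStmt) (hDNS : DnsStmt) : LthStmt := by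
  intro ι M κ U hU
  obtain ⟨-, h2, -⟩ := hLTS ι M κ U hU
  have hI : I * ((1 / 4 : ℝ) : ℂ) = I / 4 := by
    push_cast
    ring
  refine ⟨fun μ f g hf hg => ?_, ?_⟩
  · have h := (h2 μ (lamt M.V U μ)).2 rfl f g hf hg
    rw [h, inner_lam, hI]
  · set A : Set (Al U) := {a : Al U | ∃ f g : ℂ → L2 ι, Traj M.V f ∧ Traj M.V g ∧
      a = asl U (f (I / 4)) (g (-(I / 4)))} with hA
    have hS : IsClosed ((Submodule.span ℂ A).topologicalClosure : Set (Al U)) :=
      Submodule.isClosed_topologicalClosure _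
    have h3 : ∀ u y : L2 ι, asl U u y ∈ (Submodule.span ℂ A).topologicalClosure := by
      intro u y
      refine (total_traj M.V_group (I / 4)).sesq_mem (total_traj M.V_group (-(I / 4))) (aslL U)
        _ hS ?_ u y
      rintro _ ⟨f, hf, rfl⟩ _ ⟨g, hg, rfl⟩
      exact Submodule.le_topologicalClosure _ (Submodule.subset_span ⟨f, g, hf, hg, rfl⟩)
    have h4 : ∀ v : Al U, v ∈ (Submodule.span ℂ A).topologicalClosure :=
      Total.mem_of_closed (hDNS ι M κ U hU) _ hS (by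
        rintro _ ⟨u, y, rfl⟩
        exact h3 u y)
    intro v
    exact h4 v

end Pool.Agent.MQG.H35
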